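import Mathlib
import Pool.Agent.H14.ChromStrict

namespace Pool.Agent.Results.MP_cf191d_co.NeverTight

/-- For every graph `H` with at least two edges, every `H`-intersecting family of graphs on `n`
labelled vertices has strictly fewer than `2 ^ (C(n,2) - (χ(H) - 1))` members. -/
theorem result :
    ∀ (h : ℕ) (H : SimpleGraph (Fin h)), 2 ≤ H.edgeSet.ncard →
      ∀ (n : ℕ) (F : Finset (SimpleGraph (Fin n))),
        (∀ G₁ ∈ F, ∀ G₂ ∈ F, H.IsContained (G₁ ⊓ G₂)) →
        (F.card : ℝ) < (2 : ℝ) ^ ((n.choose 2 : ℝ) - ((H.chromaticNumber.toNat : ℝ) - 1)) :=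
  fun _ H hH _ F hF => Pool.Agent.H14.ChromStrict.main H hH F hF

end Pool.Agent.Results.MP_cf191d_co.NeverTight
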